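import Pool.Agent.MP_9e511b_an.H18.Main

open MeasureTheory Filter Topology
open scoped ENNReal ContDiff

namespace Pool.Agent.Results.MP_9e511b_an.SharpRate

/-- Euclidean space. -/
abbrev E (d : ℕ) : Type := EuclideanSpace ℝ (Fin d)

/-- `u` lies in `W₀^{1,p}(Ω)` with weak gradient `g`: there are test functions `φₙ` in `Ω` with
`φₙ → u` and `∇φₙ → g` in `L^p(Ω)`. -/
def InW0 {d : ℕ} (p : ℝ) (Ω : Set (E d)) (u : E d → ℝ) (g : E d → E d) : Prop :=
  MemLp u (ENNReal.ofReal p) (volume.restrict Ω) ∧ MemLp g (ENNReal.ofReal p) (volume.restrict Ω) ∧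
    ∃ φ : ℕ → E d → ℝ,
      (∀ n, ContDiff ℝ ∞ (φ n) ∧ HasCompactSupport (φ n) ∧ tsupport (φ n) ⊆ Ω) ∧
      Tendsto (fun n => eLpNorm (φ n - u) (ENNReal.ofReal p) (volume.restrict Ω)) atTop (𝓝 0) ∧
      Tendsto (fun n => eLpNorm (gradient (φ n) - g) (ENNReal.ofReal p) (volume.restrict Ω))
        atTop (𝓝 0)

/-- The `p`-torsional rigidity. -/
noncomputable def torsion {d : ℕ} (p : ℝ) (Ω : Set (E d)) : ℝ≥0∞ :=
  ⨆ (u : E d → ℝ) (g : E d → E d) (_ : InW0 p Ω u g) (_ : ¬u =ᵐ[volume.restrict Ω] 0),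
    (∫⁻ x in Ω, ‖u x‖ₑ) ^ p / ∫⁻ x in Ω, ‖g x‖ₑ ^ p

/-- The principal Dirichlet eigenvalue of the `p`-Laplacian. -/
noncomputable def eigen {d : ℕ} (p : ℝ) (Ω : Set (E d)) : ℝ≥0∞ :=
  ⨅ (u : E d → ℝ) (g : E d → E d) (_ : InW0 p Ω u g) (_ : ¬u =ᵐ[volume.restrict Ω] 0),
    (∫⁻ x in Ω, ‖g x‖ₑ ^ p) / ∫⁻ x in Ω, ‖u x‖ₑ ^ p

/-- The supremum `S(p,d)` of `F_{p,1}` over the open sets of finite positive measure. -/
noncomputable def S (p : ℝ) (d : ℕ) : ℝ≥0∞ :=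
  ⨆ (Ω : Set (E d)) (_ : IsOpen Ω) (_ : 0 < volume Ω) (_ : volume Ω < ⊤),
    eigen p Ω * torsion p Ω / volume Ω ^ (p - 1)

open Pool.Agent.MP_9e511b_an.H18

variable {d : ℕ} {p : ℝ} {Ω : Set (E d)}

theorem norm_grad (φ : E d → ℝ) (x : E d) : ‖gradient φ x‖ = ‖fderiv ℝ φ x‖ :=
  LinearIsometryEquiv.norm_map _ _

theorem grad_cont {φ : E d → ℝ} (h : ContDiff ℝ ∞ φ) : Continuous (gradient φ) :=
  (LinearIsometryEquiv.continuous _).comp (h.continuous_fderiv (by simp))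

theorem grad_supp (φ : E d → ℝ) : Function.support (gradient φ) ⊆ tsupport φ := fun x hx =>
  support_fderiv_subset ℝ fun e => hx (by rw [← norm_eq_zero, norm_grad, e, norm_zero])

theorem lint_fun {φ : E d → ℝ} (h : Test Ω φ) (hp : 0 < p) :
    ∫⁻ x in Ω, ‖φ x‖ₑ ^ p = ∫⁻ x, ‖φ x‖ₑ ^ p :=
  setLIntegral_eq_of_support_subset fun x hx =>
    h.2.2 (subset_tsupport φ fun e => hx (by simp [e, hp]))

theorem lint_grad {φ : E d → ℝ} (h : Test Ω φ) (hp : 0 < p) :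
    ∫⁻ x in Ω, ‖gradient φ x‖ₑ ^ p = ∫⁻ x, ‖fderiv ℝ φ x‖ₑ ^ p := by
  rw [setLIntegral_eq_of_support_subset fun x hx =>
    h.2.2 (grad_supp φ fun e => hx (by simp [e, hp]))]
  simp only [en_pow _ hp.le, norm_grad]

theorem inW0 {φ : E d → ℝ} (h : Test Ω φ) : InW0 p Ω φ (gradient φ) :=
  ⟨(h.1.continuous.memLp_of_hasCompactSupport h.2.1).restrict Ω,
    ((grad_cont h.1).memLp_of_hasCompactSupport (h.2.1.mono' (grad_supp φ))).restrict Ω,
    fun _ => φ, fun _ => h, by simp, by simp⟩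

theorem pw {F : Type} [NormedAddCommGroup F] (hp0 : 0 < p) (f : E d → F) : ∫⁻ x in Ω, ‖f x‖ₑ ^ p =
    eLpNorm f (ENNReal.ofReal p) (volume.restrict Ω) ^ p :=
  (eLpNorm_nnreal_pow_eq_lintegral (p := ⟨p, hp0.le⟩) (fun e => hp0.ne' (congrArg NNReal.toReal e))
    ).symm.trans (by rw [ENNReal.ofReal, Real.toNNReal_of_nonneg hp0.le]; rfl)

theorem ne_zero {q : ℝ} (hq : 0 < q) {u : E d → ℝ}
    (hu : AEStronglyMeasurable u (volume.restrict Ω)) :
    ∫⁻ x in Ω, ‖u x‖ₑ ^ q = 0 ↔ u =ᵐ[volume.restrict Ω] 0 := by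
  rw [lintegral_eq_zero_iff' (hu.enorm.pow_const q)]
  exact eventually_congr (Eventually.of_forall fun x => by simp [hq])

theorem limit_bound (hp : 1 ≤ p) {lam K : ℝ≥0∞} (hK : K ≠ ⊤) (q : ℝ≥0∞)
    (h : ∀ ψ, Test Ω ψ → lam * eLpNorm ψ q (volume.restrict Ω) ^ p ≤
      K * ∫⁻ x in Ω, ‖gradient ψ x‖ₑ ^ p) {u : E d → ℝ} {g : E d → E d} (hu : InW0 p Ω u g) :
    lam * eLpNorm u q (volume.restrict Ω) ^ p ≤ K * ∫⁻ x in Ω, ‖g x‖ₑ ^ p := by
  obtain ⟨m1, m2, φ, hφ, t1, t2⟩ := hu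
  have hp0 : 0 < p := by linarith
  have ms : ∀ n, AEStronglyMeasurable (φ n) (volume.restrict Ω) := fun n =>
    (hφ n).1.continuous.aestronglyMeasurable
  obtain ⟨ns, hns, hae⟩ := (tendstoInMeasure_of_tendsto_eLpNorm (by simpa using hp0) ms m1.1
    t1).exists_seq_tendsto_ae
  have fat := Lp.eLpNorm_lim_le_liminf_eLpNorm (p := q) (fun n => ms (ns n)) u hae
  have lim := ENNReal.Tendsto.const_mul (a := K) ((ENNReal.continuous_rpow_const (y := p)).tendsto _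
    |>.comp ((t2.comp hns.tendsto_atTop).add_const
      (eLpNorm g (ENNReal.ofReal p) (volume.restrict Ω)))) (Or.inr hK)
  rw [zero_add, ← pw hp0] at lim
  refine ENNReal.mul_le_of_forall_lt fun a ha b hb => ge_of_tendsto lim ?_
  filter_upwards [eventually_lt_of_lt_liminf (((ENNReal.rpow_inv_lt_iff hp0).2 hb).trans_le fat)]
    with n hn
  refine (mul_le_mul' ha.le ((ENNReal.rpow_inv_lt_iff hp0).1 hn).le).trans
    ((h _ (hφ (ns n))).trans ?_)
  rw [pw hp0]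
  refine mul_le_mul_right (ENNReal.rpow_le_rpow ?_ hp0.le) _
  have := eLpNorm_add_le ((grad_cont (hφ (ns n)).1).aestronglyMeasurable.sub m2.1) m2.1
    (ENNReal.one_le_ofReal.2 hp)
  rwa [sub_add_cancel] at this

theorem grad_ne_top {φ : E d → ℝ} (h : Test Ω φ) (hp : 0 < p) :
    ∫⁻ x, ‖fderiv ℝ φ x‖ₑ ^ p ≠ ⊤ := by
  rw [← lint_grad h hp, pw hp]
  exact ENNReal.rpow_ne_top_of_nonneg hp.le (inW0 h).2.1.2.ne

theorem S_le (hp : 1 < p) {s : ℝ} (h : Good (volume : Measure (E d)) p s) :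
    S p d ≤ ENNReal.ofReal s := by
  have hp0 : 0 < p := by linarith
  refine iSup_le fun Ω => iSup_le fun hΩ => iSup_le fun _ => iSup_le fun hfin =>
    ENNReal.div_le_of_le_mul ?_
  simp only [torsion, ENNReal.mul_iSup]
  refine iSup_le fun u => iSup_le fun g => iSup_le fun hu => iSup_le fun _ => ?_
  rw [← mul_div_assoc, ← eLpNorm_one_eq_lintegral_enorm]
  refine ENNReal.div_le_of_le_mul (limit_bound hp.le (ENNReal.mul_ne_top ENNReal.ofReal_ne_top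
    (ENNReal.rpow_ne_top_of_nonneg (by linarith) hfin.ne)) 1 (fun ψ hψ => ?_) hu)
  have low : ∀ φ, Test Ω φ → eigen p Ω * ∫⁻ x, ‖φ x‖ₑ ^ p ≤ ∫⁻ x, ‖fderiv ℝ φ x‖ₑ ^ p := by
    intro φ hφ
    rw [← lint_fun hφ hp0, ← lint_grad hφ hp0]
    by_cases h0 : φ =ᵐ[volume.restrict Ω] 0
    · simp [(ne_zero hp0 (inW0 (p := p) hφ).1.1).2 h0]
    · exact ENNReal.mul_le_of_le_div (iInf_le_of_le φ (iInf_le_of_le _ (iInf_le_of_le (inW0 hφ)
        (iInf_le _ h0))))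
  by_cases h0 : ψ =ᵐ[volume.restrict Ω] 0
  · simp [eLpNorm_congr_ae h0, hp0]
  have ht : eigen p Ω ≠ ⊤ := fun e => by
    have := low ψ hψ
    rw [e, ← lint_fun hψ hp0, ENNReal.top_mul (mt (ne_zero hp0 (inW0 (p := p) hψ).1.1).1 h0)] at this
    exact grad_ne_top hψ hp0 (top_le_iff.1 this)
  obtain ⟨R, hR⟩ := hψ.2.1.isCompact.isBounded.subset_ball 0
  have key := h (Ω ∩ Metric.ball 0 R) (hΩ.inter Metric.isOpen_ball)
    (Metric.isBounded_ball.subset Set.inter_subset_right) (eigen p Ω).toReal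
    (fun φ hφ => by
      rw [ENNReal.ofReal_toReal ht]
      exact low φ ⟨hφ.1, hφ.2.1, hφ.2.2.trans Set.inter_subset_left⟩) ψ
    ⟨hψ.1, hψ.2.1, Set.subset_inter hψ.2.2 hR⟩
  have e := lint_fun hψ one_pos
  simp only [ENNReal.rpow_one] at e
  rw [eLpNorm_one_eq_lintegral_enorm, e, lint_grad hψ hp0, ← ENNReal.ofReal_toReal ht]
  refine key.trans ?_
  gcongr
  exact Set.inter_subset_left

theorem good_S (hp : 1 < p) (hS : S p d ≠ ⊤) : Good (volume : Measure (E d)) p (S p d).toReal := by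
  intro Ω hΩ hb lam hl ψ hψ
  have hp0 : 0 < p := by linarith
  have e := lint_fun hψ one_pos
  have z := ne_zero one_pos (inW0 (p := p) hψ).1.1
  simp only [ENNReal.rpow_one] at e z
  by_cases h0 : ψ =ᵐ[volume.restrict Ω] 0
  · simp [← e, z.2 h0, hp0]
  by_cases hE : ∫⁻ x, ‖fderiv ℝ ψ x‖ₑ ^ p = 0
  · have := hl ψ hψ
    rw [hE, nonpos_iff_eq_zero, mul_eq_zero, ← lint_fun hψ hp0,
      ne_zero hp0 (inW0 (p := p) hψ).1.1] at this
    simp [this.resolve_right h0]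
  have hV : volume Ω ≠ 0 := fun hV => h0 (by simp [Measure.restrict_eq_zero.2 hV, EventuallyEq])
  have hVt := hb.measure_lt_top (μ := volume)
  have h1 : ENNReal.ofReal lam ≤ eigen p Ω :=
    le_iInf fun u => le_iInf fun g => le_iInf fun hu => le_iInf fun hu0 => by
      have := limit_bound hp.le ENNReal.one_ne_top (ENNReal.ofReal p) (lam := ENNReal.ofReal lam)
        (fun φ hφ => by
          rw [← pw hp0, one_mul, lint_fun hφ hp0, lint_grad hφ hp0]; exact hl φ hφ) hu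
      rw [← pw hp0, one_mul] at this
      refine (ENNReal.le_div_iff_mul_le (Or.inl (mt (ne_zero hp0 hu.1.1).1 hu0)) (Or.inl ?_)).2 this
      rw [pw hp0]
      exact ENNReal.rpow_ne_top_of_nonneg hp0.le hu.1.2.ne
  have h2 : (∫⁻ x, ‖ψ x‖ₑ) ^ p / ∫⁻ x, ‖fderiv ℝ ψ x‖ₑ ^ p ≤ torsion p Ω := by
    rw [← e, ← lint_grad hψ hp0]
    exact le_iSup_of_le ψ (le_iSup_of_le _ (le_iSup_of_le (inW0 hψ) (le_iSup_of_le h0 le_rfl)))
  have h3 : eigen p Ω * torsion p Ω / volume Ω ^ (p - 1) ≤ S p d :=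
    le_iSup_of_le Ω (le_iSup_of_le hΩ (le_iSup_of_le (pos_iff_ne_zero.2 hV)
      (le_iSup_of_le hVt le_rfl)))
  rw [ENNReal.div_le_iff (by simp [hV, hVt.ne])
    (ENNReal.rpow_ne_top_of_nonneg (by linarith) hVt.ne)] at h3
  rw [ENNReal.ofReal_toReal hS, ← ENNReal.div_le_iff hE (grad_ne_top hψ hp0), mul_div_assoc]
  exact (mul_le_mul' h1 h2).trans h3

/-- The gap `1 - S(p,d)` is of the exact order `(p - d)^2` as `p` decreases to `d`. -/
theorem result : ∀ d : ℕ, 2 ≤ d → ∀ P : ℝ, (d : ℝ) < P → ∃ c C : ℝ, 0 < c ∧ 0 < C ∧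
    ∀ p ∈ Set.Ioc (d : ℝ) P, 1 - S p d ∈
      Set.Icc (ENNReal.ofReal (c * (p - d) ^ 2)) (ENNReal.ofReal (C * (p - d) ^ 2)) := by
  intro d hd P hP
  have := nontriv hd
  have hd2 : (2 : ℝ) ≤ d := by exact_mod_cast hd
  obtain ⟨k, hk⟩ := exists_nat_ge P
  obtain ⟨σ, s0, s1, up⟩ := upper (volume : Measure (E d)) k
  obtain ⟨C, hC, lo⟩ := lower hd (P := P) (by linarith)
  rw [finrank_euclideanSpace_fin] at up
  have hP0 : 0 < P := by linarith
  refine ⟨(σ / P) ^ 2 / 2, C, by positivity, hC, fun p ⟨h1, h2⟩ => ?_⟩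
  have hp : 0 < p - 1 := by linarith
  have hq : 0 < p - d := by linarith
  have u := S_le (by linarith) (up p (by linarith) h1 (by push_cast; linarith))
  have hS := ne_top_of_le_ne_top ENNReal.ofReal_ne_top u
  constructor
  · refine le_trans ?_ (tsub_le_tsub_left u 1)
    rw [← ENNReal.ofReal_one, ← ENNReal.ofReal_sub _ (by positivity)]
    refine ENNReal.ofReal_le_ofReal ?_
    have a1 : σ * ((p - d) / (p - 1)) ≤ 1 :=
      mul_le_one₀ s1 (by positivity) ((div_le_one hp).2 (by linarith))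
    have a2 : σ / P * (p - d) ≤ σ * ((p - d) / (p - 1)) := by
      rw [div_mul_eq_mul_div, mul_div_assoc]
      gcongr
      linarith
    have a3 := pow_le_pow_left₀ (by positivity) a2 2
    have a4 := pow_le_one₀ (n := 2) (by positivity) a1
    generalize (σ * ((p - d) / (p - 1))) ^ 2 = x at a3 a4
    have a5 : 0 ≤ x := le_trans (by positivity) a3
    have a6 : 1 / (1 + x) ≤ 1 - x / 2 := by
      rw [div_le_iff₀ (by positivity)]
      linarith [mul_nonneg a5 (sub_nonneg.2 a4)]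
    linarith
  · have l := lo p ((p - d) / (p - 1)) _ (by linarith) h2 (by positivity)
      (div_mul_cancel₀ _ hp.ne') ENNReal.toReal_nonneg (good_S (by linarith) hS)
    have a : C * ((p - d) / (p - 1)) ^ 2 ≤ C * (p - d) ^ 2 := by
      gcongr
      exact div_le_self hq.le (by linarith)
    rw [← ENNReal.ofReal_toReal hS, ← ENNReal.ofReal_one,
      ← ENNReal.ofReal_sub _ ENNReal.toReal_nonneg]
    exact ENNReal.ofReal_le_ofReal (by linarith)

end Pool.Agent.Results.MP_9e511b_an.SharpRate
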