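import Pool.Agent.MP_9e511b_an.Mg.Main

open MeasureTheory Filter Topology
open scoped ENNReal ContDiff

namespace Pool.Agent.Results.MP_9e511b_an.SobolevForm

/-- Euclidean space. -/
abbrev E (d : ℕ) : Type := EuclideanSpace ℝ (Fin d)

/-- `u` lies in `W₀^{1,p}(Ω)` with weak gradient `g`: there are test functions `φₙ` in `Ω` with
`φₙ → u` and `∇φₙ → g` in `L^p(Ω)`. -/
def InW0 {d : ℕ} (p : ℝ) (Ω : Set (E d)) (u : E d → ℝ) (g : E d → E d) : Prop :=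
  MemLp u (ENNReal.ofReal p) (volume.restrict Ω) ∧ MemLp g (ENNReal.ofReal p) (volume.restrict Ω) ∧
    ∃ φ : ℕ → E d → ℝ,
      (∀ n, ContDiff ℝ ∞ (φ n) ∧ HasCompactSupport (φ n) ∧ tsupport (φ n) ⊆ Ω) ∧
      Tendsto (fun n => eLpNorm (φ n - u) (ENNReal.ofReal p) (volume.restrict Ω)) atTop (𝓝 0) ∧
      Tendsto (fun n => eLpNorm (gradient (φ n) - g) (ENNReal.ofReal p) (volume.restrict Ω))
        atTop (𝓝 0)

/-- The `p`-torsional rigidity. -/
noncomputable def torsion {d : ℕ} (p : ℝ) (Ω : Set (E d)) : ℝ≥0∞ :=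
  ⨆ (u : E d → ℝ) (g : E d → E d) (_ : InW0 p Ω u g) (_ : ¬u =ᵐ[volume.restrict Ω] 0),
    (∫⁻ x in Ω, ‖u x‖ₑ) ^ p / ∫⁻ x in Ω, ‖g x‖ₑ ^ p

/-- The principal Dirichlet eigenvalue of the `p`-Laplacian. -/
noncomputable def eigen {d : ℕ} (p : ℝ) (Ω : Set (E d)) : ℝ≥0∞ :=
  ⨅ (u : E d → ℝ) (g : E d → E d) (_ : InW0 p Ω u g) (_ : ¬u =ᵐ[volume.restrict Ω] 0),
    (∫⁻ x in Ω, ‖g x‖ₑ ^ p) / ∫⁻ x in Ω, ‖u x‖ₑ ^ p

/-- The supremum `S(p,d)` of `F_{p,1}` over the open sets of finite positive measure. -/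
noncomputable def S (p : ℝ) (d : ℕ) : ℝ≥0∞ :=
  ⨆ (Ω : Set (E d)) (_ : IsOpen Ω) (_ : 0 < volume Ω) (_ : volume Ω < ⊤),
    eigen p Ω * torsion p Ω / volume Ω ^ (p - 1)

variable {d : ℕ} {p : ℝ} {Ω : Set (E d)}

theorem lint_eq {F : Type} [NormedAddCommGroup F] {f : E d → F} (hf : Continuous f)
    (hc : HasCompactSupport f) (hs : Function.support f ⊆ Ω) (hp : 0 < p) :
    ∫⁻ x in Ω, ‖f x‖ₑ ^ p = ENNReal.ofReal (∫ x, ‖f x‖ ^ p) := by
  rw [setLIntegral_eq_of_support_subset (fun x hx => hs fun e => hx (by simp [e, hp])),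
    ofReal_integral_eq_lintegral_ofReal
      ((hf.norm.rpow_const fun _ => Or.inr hp.le).integrable_of_hasCompactSupport
        (hc.comp_left (g := fun t : F => ‖t‖ ^ p) (by simp [hp.ne'])))
      (Eventually.of_forall fun x => by positivity)]
  exact lintegral_congr fun x => by rw [← ofReal_norm, ENNReal.ofReal_rpow_of_nonneg
    (norm_nonneg _) hp.le]

theorem norm_grad (φ : E d → ℝ) (x : E d) : ‖gradient φ x‖ = ‖fderiv ℝ φ x‖ :=
  LinearIsometryEquiv.norm_map _ _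

theorem grad_cont {φ : E d → ℝ} (h : ContDiff ℝ ∞ φ) : Continuous (gradient φ) :=
  (LinearIsometryEquiv.continuous _).comp (h.continuous_fderiv (by simp))

theorem grad_supp (φ : E d → ℝ) : Function.support (gradient φ) ⊆ tsupport φ := fun x hx =>
  support_fderiv_subset ℝ fun e => hx (by rw [← norm_eq_zero, norm_grad, e, norm_zero])

theorem lint_grad {φ : E d → ℝ} (h1 : ContDiff ℝ ∞ φ) (h2 : HasCompactSupport φ)
    (h3 : tsupport φ ⊆ Ω) (hp : 0 < p) :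
    ∫⁻ x in Ω, ‖gradient φ x‖ₑ ^ p = ENNReal.ofReal (∫ x, ‖fderiv ℝ φ x‖ ^ p) := by
  rw [lint_eq (grad_cont h1) (h2.mono' (grad_supp φ)) ((grad_supp φ).trans h3) hp]
  simp only [norm_grad]

theorem eigen_le {φ : E d → ℝ} (h1 : ContDiff ℝ ∞ φ) (h2 : HasCompactSupport φ)
    (h3 : tsupport φ ⊆ Ω) (h4 : φ ≠ 0) (hp : 0 < p) : eigen p Ω ≤
      ENNReal.ofReal ((∫ x, ‖fderiv ℝ φ x‖ ^ p) / ∫ x, |φ x| ^ p) := by
  have hs := (subset_tsupport φ).trans h3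
  have e := lint_eq h1.continuous h2 hs hp
  have pos : 0 < ∫ x, |φ x| ^ p := by
    refine (h1.continuous.abs.rpow_const fun _ => Or.inr hp.le).integral_pos_of_hasCompactSupport_nonneg_nonzero
      (h2.comp_left (g := fun t : ℝ => |t| ^ p) (by simp [hp.ne'])) (fun x => by positivity)
      (x := (Function.ne_iff.1 h4).choose) ?_
    exact (Real.rpow_pos_of_pos (abs_pos.2 (Function.ne_iff.1 h4).choose_spec) p).ne'
  simp only [Real.norm_eq_abs] at e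
  rw [ENNReal.ofReal_div_of_pos pos, ← e, ← lint_grad h1 h2 h3 hp]
  refine iInf_le_of_le φ (iInf_le_of_le (gradient φ) (iInf_le_of_le
    ⟨(h1.continuous.memLp_of_hasCompactSupport h2).restrict Ω,
      ((grad_cont h1).memLp_of_hasCompactSupport (h2.mono' (grad_supp φ))).restrict Ω,
      fun _ => φ, fun _ => ⟨h1, h2, h3⟩, by simp, by simp⟩ (iInf_le_of_le (fun h0 => ?_) le_rfl)))
  rw [lintegral_congr_ae (g := fun _ => 0) (h0.mono fun x hx => by simp [hx, hp]),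
    lintegral_zero, eq_comm, ENNReal.ofReal_eq_zero] at e
  exact absurd pos (not_lt.2 e)

theorem test_bound (hd : 1 ≤ d) (hp : (d : ℝ) < p) : ∃ c : ℝ, c < 1 ∧ ∀ Ω : Set (E d), IsOpen Ω →
    volume Ω < ⊤ → ∀ ψ : E d → ℝ, ContDiff ℝ ∞ ψ → HasCompactSupport ψ → tsupport ψ ⊆ Ω →
      eigen p Ω * (∫⁻ x in Ω, ‖ψ x‖ₑ) ^ p ≤
        ENNReal.ofReal c * volume Ω ^ (p - 1) * ∫⁻ x in Ω, ‖gradient ψ x‖ₑ ^ p := by
  have : Nonempty (Fin d) := ⟨⟨0, hd⟩⟩
  have hp1 : 1 < p := lt_of_le_of_lt (by exact_mod_cast hd) hp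
  have hp0 : 0 < p := by linarith
  obtain ⟨c, hc, h⟩ := Pool.Agent.MP_9e511b_an.strict_polya (volume : Measure (E d)) hp1
    (by rwa [finrank_euclideanSpace_fin])
  refine ⟨c, hc, fun Ω hΩ hfin ψ h1 h2 h3 => ?_⟩
  by_cases h4 : ψ = 0
  · simp [h4, hp0]
  have hle := eigen_le h1 h2 h3 h4 hp0
  have hJ0 : 0 ≤ ∫ x, ‖fderiv ℝ ψ x‖ ^ p := integral_nonneg fun _ => by positivity
  rcases hJ0.eq_or_lt with hJ | hJ
  · rw [← hJ] at hle
    simp [show eigen p Ω = 0 by simpa using hle]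
  obtain ⟨R, hR⟩ := h2.isCompact.isBounded.subset_ball 0
  have hsub : tsupport ψ ⊆ Ω ∩ Metric.ball 0 R := Set.subset_inter h3 hR
  have key := h (Ω ∩ Metric.ball 0 R) (hΩ.inter Metric.isOpen_ball)
    (Metric.isBounded_ball.subset Set.inter_subset_right)
    ⟨_, hsub (subset_tsupport ψ (Function.ne_iff.1 h4).choose_spec)⟩ (eigen p Ω).toReal
    (fun φ g1 g2 g3 g4 => ENNReal.toReal_le_of_le_ofReal
      (div_nonneg (integral_nonneg fun _ => by positivity) (integral_nonneg fun _ => by positivity))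
      (eigen_le g1 g2 (g3.trans Set.inter_subset_left) g4 hp0)) ψ h1 h2 hsub h4
  have e := lint_eq (p := 1) h1.continuous h2 ((subset_tsupport ψ).trans h3) one_pos
  simp only [ENNReal.rpow_one, Real.rpow_one, Real.norm_eq_abs] at e
  have hM : 0 ≤ ∫ x, |ψ x| := integral_nonneg fun _ => abs_nonneg _
  rw [← mul_div_assoc, div_le_iff₀ hJ] at key
  rw [e, lint_grad h1 h2 h3 hp0, ENNReal.ofReal_rpow_of_nonneg hM hp0.le,
    ← ENNReal.ofReal_toReal (ne_top_of_le_ne_top ENNReal.ofReal_ne_top hle),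
    ← ENNReal.ofReal_mul ENNReal.toReal_nonneg]
  refine (ENNReal.ofReal_le_ofReal key).trans ?_
  rw [ENNReal.ofReal_mul' hJ0, ENNReal.ofReal_mul' (by positivity),
    ← ENNReal.ofReal_rpow_of_nonneg ENNReal.toReal_nonneg (by linarith)]
  gcongr
  exact ENNReal.ofReal_toReal_le.trans (measure_mono Set.inter_subset_left)

theorem limit_bound (hp : 1 ≤ p) {lam K : ℝ≥0∞} (hK : K ≠ ⊤)
    (h : ∀ ψ : E d → ℝ, ContDiff ℝ ∞ ψ → HasCompactSupport ψ → tsupport ψ ⊆ Ω →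
      lam * (∫⁻ x in Ω, ‖ψ x‖ₑ) ^ p ≤ K * ∫⁻ x in Ω, ‖gradient ψ x‖ₑ ^ p)
    {u : E d → ℝ} {g : E d → E d} (hu : InW0 p Ω u g) :
    lam * (∫⁻ x in Ω, ‖u x‖ₑ) ^ p ≤ K * ∫⁻ x in Ω, ‖g x‖ₑ ^ p := by
  obtain ⟨m1, m2, φ, hφ, t1, t2⟩ := hu
  have hp0 : 0 < p := by linarith
  have pw : ∀ f : E d → E d, ∫⁻ x in Ω, ‖f x‖ₑ ^ p =
      eLpNorm f (ENNReal.ofReal p) (volume.restrict Ω) ^ p := fun f =>
    (eLpNorm_nnreal_pow_eq_lintegral (p := ⟨p, hp0.le⟩) (fun e => hp0.ne' (congrArg NNReal.toReal e))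
      ).symm.trans (by rw [ENNReal.ofReal, Real.toNNReal_of_nonneg hp0.le]; rfl)
  have ms : ∀ n, AEStronglyMeasurable (φ n) (volume.restrict Ω) := fun n =>
    (hφ n).1.continuous.aestronglyMeasurable
  obtain ⟨ns, hns, hae⟩ := (tendstoInMeasure_of_tendsto_eLpNorm (by simpa using hp0) ms m1.1
    t1).exists_seq_tendsto_ae
  have fat := Lp.eLpNorm_lim_le_liminf_eLpNorm (p := 1) (fun n => ms (ns n)) u hae
  simp only [eLpNorm_one_eq_lintegral_enorm] at fat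
  have lim := ENNReal.Tendsto.const_mul (a := K) ((ENNReal.continuous_rpow_const (y := p)).tendsto _
    |>.comp ((t2.comp hns.tendsto_atTop).add_const
      (eLpNorm g (ENNReal.ofReal p) (volume.restrict Ω)))) (Or.inr hK)
  rw [zero_add, ← pw] at lim
  refine ENNReal.mul_le_of_forall_lt fun a ha b hb => ge_of_tendsto lim ?_
  have hb' : b ^ p⁻¹ < ∫⁻ x in Ω, ‖u x‖ₑ := (ENNReal.rpow_inv_lt_iff hp0).2 hb
  filter_upwards [eventually_lt_of_lt_liminf (hb'.trans_le fat)] with n hn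
  obtain ⟨h1, h2, h3⟩ := hφ (ns n)
  refine (mul_le_mul' ha.le ((ENNReal.rpow_inv_lt_iff hp0).1 hn).le).trans
    ((h _ h1 h2 h3).trans ?_)
  rw [pw]
  refine mul_le_mul_right (ENNReal.rpow_le_rpow ?_ hp0.le) _
  have := eLpNorm_add_le ((grad_cont h1).aestronglyMeasurable.sub m2.1) m2.1
    (ENNReal.one_le_ofReal.2 hp)
  rwa [sub_add_cancel] at this

/-- The strict Polya inequality for `p > d`, for all open sets of finite positive measure. -/
theorem result : ∀ d : ℕ, 1 ≤ d → ∀ p : ℝ, (d : ℝ) < p → S p d < 1 := by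
  intro d hd p hp
  have hp1 : 1 < p := lt_of_le_of_lt (by exact_mod_cast hd) hp
  obtain ⟨c, hc, h⟩ := test_bound hd hp
  refine lt_of_le_of_lt (iSup_le fun Ω => iSup_le fun hΩ => iSup_le fun _ => iSup_le fun hfin =>
    ENNReal.div_le_of_le_mul ?_) (ENNReal.ofReal_lt_one.2 hc)
  simp only [torsion, ENNReal.mul_iSup]
  refine iSup_le fun u => iSup_le fun g => iSup_le fun hu => iSup_le fun _ => ?_
  rw [← mul_div_assoc]
  exact ENNReal.div_le_of_le_mul (limit_bound hp1.le (ENNReal.mul_ne_top ENNReal.ofReal_ne_top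
    (ENNReal.rpow_ne_top_of_nonneg (by linarith) hfin.ne)) (h Ω hΩ hfin) hu)

end Pool.Agent.Results.MP_9e511b_an.SobolevForm
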